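import Pool.Agent.W586.CS.Stm

/-! CS-PAR (helper782): parity and the vacuum vector. -/

set_option autoImplicit false
open MvPolynomial Pool.Agent.W586.CS

namespace Pool.Agent.W782.CS.PAR

theorem fl_even {d : ℕ} (j : Fin d) (I : Finset (Fin d)) : Even (fl j I).card ↔ Odd I.card := by
  unfold fl
  split_ifs with h
  · rw [← Finset.card_erase_add_one h, Nat.odd_add_one, Nat.not_odd_iff_even]
  · rw [Finset.card_insert_of_notMem h, Nat.even_add_one, Nat.not_even_iff_odd]

theorem fl_odd {d : ℕ} (j : Fin d) (I : Finset (Fin d)) : Odd (fl j I).card ↔ Even I.card := by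
  rw [← Nat.not_even_iff_odd, fl_even, Nat.not_odd_iff_even]

theorem B0_apply {d : ℕ} {ι : Type} (f : V d ι) (I : Finset (Fin d)) (a : ι) :
    B0 d ι f I a = ∑ j : Fin d, (sg j I • (X j * f (fl j I) a) +
      (ep j I * sg j I) • (pderiv j (f (fl j I) a) - X j * f (fl j I) a)) := by
  unfold B0
  rw [LinearMap.sum_apply, Finset.sum_apply, Finset.sum_apply]
  rfl

theorem main : S_PAR := by
  intro d ι _
  classical
  refine ⟨?_, ?_, ?_, ?_, ?_, ?_⟩
  · intro m f hf
    refine ⟨fun I a => if Even I.card then f I a else 0, ⟨?_, ?_⟩,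
      fun I a => if Even I.card then 0 else f I a, ⟨?_, ?_⟩, ?_⟩
    · intro I a s hs
      dsimp only at hs
      by_cases h : Even I.card
      · rw [if_pos h] at hs
        exact hf I a s hs
      · rw [if_neg h] at hs
        simp at hs
    · intro I a hI
      exact if_neg (Nat.not_even_iff_odd.2 hI)
    · intro I a s hs
      dsimp only at hs
      by_cases h : Even I.card
      · rw [if_pos h] at hs
        simp at hs
      · rw [if_neg h] at hs
        exact hf I a s hs
    · intro I a hI
      exact if_pos hI
    · funext I a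
      simp only [Pi.add_apply]
      split_ifs <;> simp
  · intro g f hf h hh
    unfold ip
    refine Finset.sum_eq_zero fun I _ => Finset.sum_eq_zero fun a _ => ?_
    rcases Nat.even_or_odd I.card with hI | hI
    · rw [hh I a hI, mul_zero, map_zero]
    · rw [hf I a hI, zero_mul, map_zero]
  · intro f hf I a hI
    rw [B0_apply]
    refine Finset.sum_eq_zero fun j _ => ?_
    rw [hf _ a ((fl_odd j I).2 hI)]
    simp
  · intro f hf I a hI
    rw [B0_apply]
    refine Finset.sum_eq_zero fun j _ => ?_
    rw [hf _ a ((fl_even j I).2 hI)]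
    simp
  · intro A f hf I a hI
    have e : KK A f I a = -∑ j : Fin d, sg j I • ∑ b, A j a b • f (fl j I) b := by
      unfold KK
      rw [LinearMap.neg_apply, LinearMap.sum_apply, Pi.neg_apply, Pi.neg_apply, Finset.sum_apply,
        Finset.sum_apply]
      rfl
    rw [e, neg_eq_zero]
    refine Finset.sum_eq_zero fun j _ => ?_
    rw [Finset.sum_eq_zero, smul_zero]
    intro b _
    rw [hf _ b ((fl_odd j I).2 hI), smul_zero]
  · rintro ⟨a0⟩
    refine ⟨fun I a => if I = ∅ ∧ a = a0 then 1 else 0, ⟨?_, ?_⟩, ?_, ?_⟩
    · intro I a s hs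
      dsimp only at hs
      by_cases h : I = ∅ ∧ a = a0
      · rw [if_pos h] at hs
        have hs0 : s = 0 := by
          by_contra hne
          rw [coeff_one, if_neg (Ne.symm hne)] at hs
          exact hs rfl
        rw [hs0, h.1]
        simp
      · rw [if_neg h] at hs
        simp at hs
    · intro I a hI
      refine if_neg ?_
      rintro ⟨rfl, -⟩
      simp at hI
    · intro h
      have := congrFun (congrFun h ∅) a0
      simp at this
    · funext I a
      rw [B0_apply]
      refine Finset.sum_eq_zero fun j _ => ?_
      by_cases hj : j ∈ I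
      · have hp : pderiv j (if fl j I = ∅ ∧ a = a0 then (1 : MvPolynomial (Fin d) ℝ) else 0) = 0 := by
          split_ifs
          · exact pderiv_one
          · exact map_zero _
        rw [hp, ep, if_pos hj, one_mul, zero_sub, smul_neg, add_neg_cancel]
      · have hne : fl j I ≠ ∅ := by
          rw [fl, if_neg hj]
          exact Finset.insert_ne_empty _ _
        rw [if_neg (fun h => hne h.1)]
        simp

end Pool.Agent.W782.CS.PAR
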